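import Pool.Agent.X35.GV.Pencil

/-! The law for sums of quadratic characters `∑_j χ_p(a_j - n b_j) u_j` over finite sets depending on `p`
(for instance the places of degree one of a number field and the points of the residue field), for all integers `n` near a thin sequence. -/

set_option autoImplicit false

namespace Pool.Agent.X124.KP
open Finset Pool.Agent.X35.GV
open Pool.Agent.H304R2.EC.Pts (qc)

variable {J : Type}

/-- the sum of `χ_p(a_j - n b_j) u_j` over `j ∈ S`, `p` prime -/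
noncomputable def tot (p : ℕ) (S : Finset J) (a b : J → ZMod p) (u : J → ℝ) (n : ℤ) : ℝ := by
  classical
  exact if hp : p.Prime then (haveI := Fact.mk hp; ∑ j : S, (qc p (a j - (n : ZMod p) * b j) : ℝ) * u j) else 0

/-- the part with `b_j ≠ 0` -/
noncomputable def tot1 (p : ℕ) (S : Finset J) (a b : J → ZMod p) (u : J → ℝ) (n : ℤ) : ℝ := by
  classical
  exact if hp : p.Prime then (haveI := Fact.mk hp; twT (fun j : S => a j / b j) (fun j : S => (qc p (b j) : ℝ) * u j) (n : ZMod p)) else 0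

/-- the part with `b_j = 0` -/
noncomputable def tot0 (p : ℕ) (S : Finset J) (a b : J → ZMod p) (u : J → ℝ) : ℝ := by
  classical
  exact if hp : p.Prime then (haveI := Fact.mk hp; base (fun j : S => a j) (fun j : S => b j) (fun j : S => u j)) else 0

section
variable (p : ℕ) (hp : p.Prime) (S : Finset J) (a b : J → ZMod p) (u : J → ℝ)
  (hu : ∀ j ∈ S, |u j| ≤ 1) (K : ℝ) (hK : 0 < K) (hS : (S.card : ℝ) ≤ K * p)
include hp

lemma tot_eq [Fact p.Prime] (n : ℤ) : tot p S a b u n = ∑ j : S, (qc p (a j - (n : ZMod p) * b j) : ℝ) * u j := by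
  unfold tot
  rw [dif_pos hp]

lemma tot1_eq [Fact p.Prime] (n : ℤ) : tot1 p S a b u n =
    twT (fun j : S => a j / b j) (fun j : S => (qc p (b j) : ℝ) * u j) (n : ZMod p) := by
  unfold tot1
  rw [dif_pos hp]

lemma tot0_eq [Fact p.Prime] : tot0 p S a b u = base (fun j : S => a j) (fun j : S => b j) (fun j : S => u j) := by
  unfold tot0
  rw [dif_pos hp]

lemma tot_split (n : ℤ) : tot p S a b u n = tot1 p S a b u n + tot0 p S a b u := by
  have := Fact.mk hp
  rw [tot_eq p hp, tot1_eq p hp, tot0_eq p hp]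
  exact split (T := S) (fun j => a j) (fun j => b j) (fun j => u j) (n : ZMod p)

lemma tot1_per (m m' : ℤ) (h : m ≡ m' [ZMOD (p : ℕ)]) : tot1 p S a b u m = tot1 p S a b u m' := by
  have := Fact.mk hp
  have h4 : ((m : ℤ) : ZMod p) = (m' : ZMod p) := (ZMod.intCast_eq_intCast_iff m m' p).2 h
  rw [tot1_eq p hp, tot1_eq p hp, h4]

include hu

include hS in
lemma tot_abs (n : ℤ) : |tot p S a b u n| ≤ K * p := by
  have := Fact.mk hp
  rw [tot_eq p hp]
  refine (abs_sum_le_sum_abs _ _).trans ?_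
  have h : ∀ j ∈ (univ : Finset S), |(qc p (a j - (n : ZMod p) * b j) : ℝ) * u j| ≤ 1 := by
    intro j _
    rw [abs_mul]
    exact mul_le_one₀ (qc_abs _) (abs_nonneg _) (hu j j.2)
  refine (sum_le_sum h).trans ?_
  rw [sum_const, card_univ, nsmul_eq_mul, mul_one, Fintype.card_coe]
  exact hS

lemma hu' [Fact p.Prime] (j : S) : |(qc p (b j) : ℝ) * u j| ≤ 1 := by
  rw [abs_mul]
  exact mul_le_one₀ (qc_abs _) (abs_nonneg _) (hu j j.2)

lemma tot0_abs (hb : (Nat.card {j : S // b j = 0} : ℝ) ≤ K) : |tot0 p S a b u| ≤ K := by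
  have := Fact.mk hp
  rw [tot0_eq p hp]
  have h1 := base_abs (T := S) (fun j => a j) (fun j => b j) (fun j => u j) 1 (fun j => hu j j.2)
  rw [mul_one] at h1
  exact h1.trans hb

include hK hS in
lemma tot1_abs (r : ℝ) (hr : |r| ≤ 1) (m : ℤ) : |r * (tot1 p S a b u m / (K * p))| ≤ 1 := by
  have := Fact.mk hp
  have hp0 : (0 : ℝ) < p := by exact_mod_cast hp.pos
  have h5 := twT_abs (fun j : S => a j / b j) (fun j : S => (qc p (b j) : ℝ) * u j) 1 (fun j => hu' p hp S b u hu j) (m : ZMod p)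
  rw [Fintype.card_coe, mul_one] at h5
  rw [tot1_eq p hp, abs_mul, abs_div, abs_of_pos (by positivity : (0 : ℝ) < K * p)]
  refine mul_le_one₀ hr (by positivity) ?_
  rw [div_le_one (by positivity)]
  linarith

omit hu in
lemma tot1_mean (h2 : p ≠ 2) (r : ℝ) : avg p (fun m => r * (tot1 p S a b u m / (K * p))) = 0 := by
  have := Fact.mk hp
  have h5 := avg_zmod (p := p) (fun m => r * (tot1 p S a b u m / (K * p)))
    (fun n => twT (fun j : S => a j / b j) (fun j : S => (qc p (b j) : ℝ) * u j) n * (r / (K * p))) (by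
      intro n
      rw [tot1_eq p hp]
      ring)
  rw [h5, ← sum_mul, twT_mean h2, zero_mul, zero_div]

include hK hS in
lemma tot1_sq (h2 : p ≠ 2) (r : ℝ) (hr : |r| ≤ 1)
    (hf' : ∀ y, (Nat.card {j : S // a j = y * b j} : ℝ) + Nat.card {j : S // b j = 0} ≤ K) :
    avg p (fun m => (r * (tot1 p S a b u m / (K * p))) ^ 2) ≤ 1 / p := by
  classical
  have := Fact.mk hp
  have hf : ∀ y, (Nat.card {j : S // a j / b j = y} : ℝ) ≤ K := by
    intro y
    refine le_trans ?_ (hf' y)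
    rw [Nat.card_eq_fintype_card, Nat.card_eq_fintype_card, Nat.card_eq_fintype_card, Fintype.card_subtype, Fintype.card_subtype,
      Fintype.card_subtype]
    have h3 : (univ.filter (fun j : S => a j / b j = y)) ⊆ (univ.filter (fun j : S => a j = y * b j)) ∪
        (univ.filter (fun j : S => b j = 0)) := by
      intro j hj
      rw [mem_filter] at hj
      rw [mem_union, mem_filter, mem_filter]
      by_cases h0 : b j = 0
      · exact Or.inr ⟨mem_univ _, h0⟩
      · left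
        refine ⟨mem_univ _, ?_⟩
        rw [← hj.2]
        field_simp
    exact_mod_cast (card_le_card h3).trans (card_union_le _ _)
  have hp0 : (0 : ℝ) < p := by exact_mod_cast hp.pos
  have h5 := avg_zmod (p := p) (fun m => (r * (tot1 p S a b u m / (K * p))) ^ 2)
    (fun n => twT (fun j : S => a j / b j) (fun j : S => (qc p (b j) : ℝ) * u j) n ^ 2 * (r / (K * p)) ^ 2) (by
      intro n
      rw [tot1_eq p hp]
      ring)
  have h6 := twT_sq h2 (fun j : S => a j / b j) K hK.le hf (fun j : S => (qc p (b j) : ℝ) * u j) 1 zero_le_one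
    (fun j => hu' p hp S b u hu j)
  rw [Fintype.card_coe] at h6
  rw [h5, ← sum_mul]
  apply div_le_div_of_nonneg_right _ hp0.le
  have hr2 : r ^ 2 ≤ 1 := by
    rw [← sq_abs]
    exact pow_le_one₀ (abs_nonneg _) hr
  calc _ ≤ ((K * p) * (K * (p * 1 ^ 2))) * (r / (K * p)) ^ 2 := by
        apply mul_le_mul_of_nonneg_right _ (sq_nonneg _)
        refine h6.trans ?_
        apply mul_le_mul_of_nonneg_right hS (by positivity)
    _ = r ^ 2 := by field_simp
    _ ≤ 1 := hr2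

end

/-- **the law** -/
theorem law (δ A : ℝ) (hδ : 0 < δ) : ∃ κ C : ℝ, 0 < κ ∧ 0 < C ∧
    ∀ (v : ℕ → ℝ) (τ θ : ℝ), (∀ i, 1 ≤ v i) → 0 ≤ τ → θ < 1 → (∀ t : ℝ, τ < t → Summable (fun i => v i ^ (-t))) →
    ∀ (Γ : Type) [Countable Γ] (S : Γ → ℕ → Finset J) (a b : Γ → (p : ℕ) → J → ZMod p) (K : Γ → ℝ) (M : Γ → ℕ),
    (∀ c, 0 < K c) → (∀ c, M c ≠ 0) →
    (∀ c, ∀ p : ℕ, p.Prime → ((S c p).card : ℝ) ≤ K c * p) →
    (∀ c, ∀ p : ℕ, p.Prime → ¬ p ∣ M c → ∀ y, (Nat.card {j : S c p // a c p j = y * b c p j} : ℝ) +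
      Nat.card {j : S c p // b c p j = 0} ≤ K c) →
    ∀ W : Γ → ℕ → Finset (ℕ → J → ℝ), (∀ c x, 2 ≤ x → ((W c x).card : ℝ) ≤ (x : ℝ) ^ A) → (∀ c x, ∀ w ∈ W c x, ∀ p j, |w p j| ≤ 1) →
    ∃ E : Set ℝ, dimH E ≤ ENNReal.ofReal ((1 - κ + τ) / (1 - θ)) ∧ ∀ α : ℝ, 0 < α → α ∉ E → ∀ c : Γ, ∃ i₀ : ℕ,
      ∀ i : ℕ, i₀ ≤ i → ∀ n : ℤ, |(|(n : ℝ)|) - α * v i| ≤ v i ^ θ →
        ∀ x : ℕ, Real.log |(n : ℝ)| ^ C ≤ x → (x : ℝ) ≤ |(n : ℝ)| ^ κ → 3 ≤ x ∧ ∀ w ∈ W c x,
          |∑ p ∈ op x, tot p (S c p) (a c p) (b c p) (w p) n / √(p : ℝ) * Real.log p| ≤ (x : ℝ) ^ (1 / 2 + δ) := by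
  classical
  obtain ⟨κ, hκ, hκ1, H⟩ := lawWinF (δ / 4) A 1 (by positivity) le_rfl
  refine ⟨κ, 2 / (δ / 4), hκ, by positivity, fun v τ θ hv1 hτ hθ hv Γ _ S a b K M hK hM hS hf W hW hW1 => ?_⟩
  have hb : ∀ c, ∀ p : ℕ, p.Prime → ¬ p ∣ M c → (Nat.card {j : S c p // b c p j = 0} : ℝ) ≤ K c := by
    intro c p hp hpM
    have h1 := hf c p hp hpM 0
    have h2 : (0 : ℝ) ≤ Nat.card {j : S c p // a c p j = 0 * b c p j} := Nat.cast_nonneg _
    linarith
  obtain ⟨F, hF⟩ : ∃ F : Γ → ℕ → (ℕ → J → ℝ) → ℕ → ℤ → ℝ, F = fun (c : Γ) (x : ℕ) (w : ℕ → J → ℝ) (p : ℕ) (n : ℤ) =>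
      if p ∣ M c then 0 else
        (√(p : ℝ) * Real.log p / (√(x : ℝ) * Real.log x)) * (tot1 p (S c p) (a c p) (b c p) (w p) n / (K c * p)) := ⟨_, rfl⟩
  have hr : ∀ x : ℕ, ∀ p ∈ op x, |√(p : ℝ) * Real.log p / (√(x : ℝ) * Real.log x)| ≤ 1 := by
    intro x p hp
    obtain ⟨q1, q2, q3, q4, q5⟩ := op_log hp
    have hp0 : (0 : ℝ) < p := by linarith
    have hx0 : (0 : ℝ) < x := by linarith
    have e1 : √(p : ℝ) ≤ √(x : ℝ) := Real.sqrt_le_sqrt q2
    have e2 : 0 < √(x : ℝ) := Real.sqrt_pos.2 hx0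
    have e3 : 0 < √(p : ℝ) := Real.sqrt_pos.2 hp0
    have e4 : √(p : ℝ) * Real.log p / (√(x : ℝ) * Real.log x) ≤ 1 := by
      rw [div_le_one (by positivity)]
      exact mul_le_mul e1 q4 q3.le e2.le
    have e5 : 0 ≤ √(p : ℝ) * Real.log p / (√(x : ℝ) * Real.log x) := by positivity
    rw [abs_of_nonneg e5]
    exact e4
  obtain ⟨E, hE1, hE2⟩ := H v τ θ hv1 hτ hθ hv Γ (ℕ → J → ℝ) W hW ℕ
    (fun _ x _ => op x) (fun _ _ p => p)
    (by
      intro c x l _ p hp
      rw [mem_op] at hp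
      exact ⟨hp.2.1.two_le, by rw [pow_one]; exact hp.1⟩)
    (by
      intro c x l _ p hp p' hp' hne
      rw [mem_op] at hp hp'
      exact (Nat.coprime_primes hp.2.1 hp'.2.1).2 hne)
    F (fun c x _ => 1 + (1 + Real.log x))
    (by
      intro c x l _ p hp m m' h
      rw [mem_op] at hp
      rw [hF]
      beta_reduce
      rw [tot1_per p hp.2.1 _ _ _ _ m m' h])
    (by
      intro c x l hl p hp m
      have hp' := hp
      rw [mem_op] at hp
      rw [hF]
      beta_reduce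
      split_ifs with hg
      · simp
      · exact tot1_abs p hp.2.1 _ _ _ _ (fun j _ => hW1 c x l hl p j) _ (hK c) (hS c p hp.2.1) _ (hr x p hp') m)
    (by
      intro c x l hl p hp
      rw [mem_op] at hp
      rw [hF]
      beta_reduce
      split_ifs with hg
      · simp [avg]
      · exact tot1_mean p hp.2.1 _ _ _ _ _ hp.2.2 _)
    (by
      intro c x l hl
      have hlx : 0 ≤ Real.log x := Real.log_natCast_nonneg x
      refine ⟨by linarith, ?_⟩
      have hone : ∀ p ∈ op x, avg p (fun m => F c x l p m ^ 2) ≤ 1 / p := by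
        intro p hp
        have hp' := hp
        rw [mem_op] at hp
        have hp0 : (0 : ℝ) < p := by exact_mod_cast hp.2.1.pos
        rw [hF]
        beta_reduce
        split_ifs with hg
        · have : avg p (fun _ : ℤ => (0 : ℝ) ^ 2) = 0 := by simp [avg]
          rw [this]
          positivity
        · exact tot1_sq p hp.2.1 _ _ _ _ (fun j _ => hW1 c x l hl p j) _ (hK c) (hS c p hp.2.1) hp.2.2 _ (hr x p hp')
            (hf c p hp.2.1 hg)
      calc _ ≤ ∑ p ∈ op x, (1 / p : ℝ) := sum_le_sum hone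
        _ ≤ 1 + Real.log x := op_harmonic x
        _ ≤ 1 + (1 + Real.log x) := by linarith)
  refine ⟨E, hE1, fun α hα hαE c => ?_⟩
  obtain ⟨i₁, hi₁⟩ := hE2 α hα hαE c
  obtain ⟨K₁, hK₁⟩ : ∃ K₁ : ℝ, K₁ = K c * (3 + M c) := ⟨_, rfl⟩
  have hKc := hK c
  have hK0 : 0 < K₁ := by
    rw [hK₁]
    positivity
  -- absorbing constants
  obtain ⟨x₀, hx₀⟩ : ∃ x₀ : ℝ, ∀ x : ℝ, x₀ ≤ x → K₁ * (x : ℝ) ^ (δ / 4) * (1 + Real.log x) ^ 2 ≤ (x : ℝ) ^ δ := by
    have h1 := (isLittleO_log_rpow_atTop (show (0 : ℝ) < δ / 8 by positivity)).bound (show (0 : ℝ) < 1 by norm_num)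
    have h2 : Filter.Tendsto (fun x : ℝ => x ^ (δ / 2)) Filter.atTop Filter.atTop := tendsto_rpow_atTop (by positivity)
    have h3 := h2.eventually_ge_atTop (4 * K₁)
    obtain ⟨x₀, hx₀⟩ := Filter.eventually_atTop.1 (h1.and (h3.and (Filter.eventually_ge_atTop (1 : ℝ))))
    refine ⟨x₀, fun x hx => ?_⟩
    obtain ⟨h4, h5, h6⟩ := hx₀ x hx
    have hx0 : 0 < x := by linarith
    rw [one_mul, Real.norm_eq_abs, Real.norm_eq_abs, abs_of_nonneg (Real.log_nonneg h6), abs_of_pos (Real.rpow_pos_of_pos hx0 _)] at h4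
    have h7 : x ^ δ = x ^ (δ / 2) * (x ^ (δ / 4) * (x ^ (δ / 8) * x ^ (δ / 8))) := by
      rw [← Real.rpow_add hx0, ← Real.rpow_add hx0, ← Real.rpow_add hx0]
      congr 1
      ring
    rw [h7]
    have h8 : 1 ≤ x ^ (δ / 8) := Real.one_le_rpow h6 (by positivity)
    have h9 : 0 ≤ Real.log x := Real.log_nonneg h6
    have h10 : 0 < x ^ (δ / 4) := Real.rpow_pos_of_pos hx0 _
    have h11 : (1 + Real.log x) ^ 2 ≤ 4 * (x ^ (δ / 8) * x ^ (δ / 8)) := by nlinarith
    calc K₁ * x ^ (δ / 4) * (1 + Real.log x) ^ 2 ≤ K₁ * x ^ (δ / 4) * (4 * (x ^ (δ / 8) * x ^ (δ / 8))) := by gcongr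
      _ = (4 * K₁) * (x ^ (δ / 4) * (x ^ (δ / 8) * x ^ (δ / 8))) := by ring
      _ ≤ x ^ (δ / 2) * (x ^ (δ / 4) * (x ^ (δ / 8) * x ^ (δ / 8))) := by gcongr
  -- `|n|` is large
  obtain ⟨i₂, hi₂⟩ := log_large hv1 hτ hθ hv α hα (max x₀ 3) (2 / (δ / 4)) (by positivity)
  refine ⟨max i₁ i₂, fun i hi n hn x hx1 hx2 => ?_⟩
  have hlarge := hi₂ i (le_trans (le_max_right _ _) hi) n hn
  have hxx : x₀ ≤ x := ((le_max_left _ _).trans hlarge).trans hx1
  have hx3 : (3 : ℝ) ≤ x := ((le_max_right _ _).trans hlarge).trans hx1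
  refine ⟨by exact_mod_cast hx3, fun w hw => ?_⟩
  have hx0 : (0 : ℝ) < x := by linarith
  have hl : 0 < Real.log x := Real.log_pos (by linarith)
  have hxb : 0 < √(x : ℝ) := Real.sqrt_pos.2 hx0
  have hmain := hi₁ i (le_trans (le_max_left _ _) hi) n hn x hx1 hx2 w hw
  have hMc : (0 : ℝ) ≤ M c := Nat.cast_nonneg _
  -- splitting of the sum
  have hsplit : ∑ p ∈ op x, tot p (S c p) (a c p) (b c p) (w p) n / √(p : ℝ) * Real.log p =
      (K c * (√(x : ℝ) * Real.log x)) * ∑ p ∈ op x, F c x w p n +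
      ∑ p ∈ op x, (if p ∣ M c then tot p (S c p) (a c p) (b c p) (w p) n / √(p : ℝ) * Real.log p else
        tot0 p (S c p) (a c p) (b c p) (w p) / √(p : ℝ) * Real.log p) := by
    rw [mul_sum, ← sum_add_distrib]
    refine sum_congr rfl fun p hp => ?_
    rw [mem_op] at hp
    have hp0 : (0 : ℝ) < p := by exact_mod_cast hp.2.1.pos
    have hpb : 0 < √(p : ℝ) := Real.sqrt_pos.2 hp0
    have hpp : √(p : ℝ) * √(p : ℝ) = p := Real.mul_self_sqrt hp0.le
    rw [hF]
    beta_reduce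
    split_ifs with hg
    · ring
    · rw [tot_split p hp.2.1]
      have e1 : (K c * (√(x : ℝ) * Real.log x)) * ((√(p : ℝ) * Real.log p / (√(x : ℝ) * Real.log x)) *
          (tot1 p (S c p) (a c p) (b c p) (w p) n / (K c * p))) =
          tot1 p (S c p) (a c p) (b c p) (w p) n / √(p : ℝ) * Real.log p := by
        have e3 : tot1 p (S c p) (a c p) (b c p) (w p) n / (K c * p) =
            tot1 p (S c p) (a c p) (b c p) (w p) n / (K c * (√(p : ℝ) * √(p : ℝ))) := by rw [hpp]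
        rw [e3]
        field_simp
      rw [e1]
      ring
  have hrest : |∑ p ∈ op x, (if p ∣ M c then tot p (S c p) (a c p) (b c p) (w p) n / √(p : ℝ) * Real.log p else
        tot0 p (S c p) (a c p) (b c p) (w p) / √(p : ℝ) * Real.log p)| ≤ (K c * (1 + M c)) * √(x : ℝ) * (1 + Real.log x) ^ 2 := by
    have hbd : ∀ p ∈ op x, |(if p ∣ M c then tot p (S c p) (a c p) (b c p) (w p) n / √(p : ℝ) * Real.log p else
        tot0 p (S c p) (a c p) (b c p) (w p) / √(p : ℝ) * Real.log p)| ≤ (K c * √(x : ℝ) * Real.log x) * (1 / p) +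
        (K c * √(x : ℝ) * Real.log x) * (if p ∣ M c then 1 else 0) := by
      intro p hp
      have hp' := hp
      obtain ⟨q1, q2, q3, q4, q5⟩ := op_log hp
      rw [mem_op] at hp
      have hp0 : (0 : ℝ) < p := by exact_mod_cast hp.2.1.pos
      have hpb : √(p : ℝ) ≤ √(x : ℝ) := Real.sqrt_le_sqrt q2
      have hpb0 : 0 < √(p : ℝ) := Real.sqrt_pos.2 hp0
      have hpp : √(p : ℝ) * √(p : ℝ) = p := Real.mul_self_sqrt hp0.le
      by_cases hg : p ∣ M c
      · rw [if_pos hg, if_pos hg]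
        have h1 := tot_abs p hp.2.1 (S c p) (a c p) (b c p) (w p) (fun j _ => hW1 c x w hw p j) (K c) (hS c p hp.2.1) n
        rw [abs_mul, abs_div, abs_of_pos hpb0, abs_of_pos q3]
        have h3 : |tot p (S c p) (a c p) (b c p) (w p) n| / √(p : ℝ) * Real.log p ≤ (K c * p) / √(p : ℝ) * Real.log x := by
          gcongr
        have h4 : (K c * p) / √(p : ℝ) * Real.log x = K c * √(p : ℝ) * Real.log x := by
          have e2 : K c * p / √(p : ℝ) = K c * √(p : ℝ) := by rw [div_eq_iff hpb0.ne', mul_assoc, hpp]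
          rw [e2]
        have h5 : K c * √(p : ℝ) * Real.log x ≤ K c * √(x : ℝ) * Real.log x := by gcongr
        have h6 : 0 ≤ (K c * √(x : ℝ) * Real.log x) * (1 / p) := by positivity
        linarith
      · rw [if_neg hg, if_neg hg]
        have h1 := tot0_abs p hp.2.1 (S c p) (a c p) (b c p) (w p) (fun j _ => hW1 c x w hw p j) (K c) (hb c p hp.2.1 hg)
        rw [abs_mul, abs_div, abs_of_pos hpb0, abs_of_pos q3]
        have h3 : |tot0 p (S c p) (a c p) (b c p) (w p)| / √(p : ℝ) * Real.log p ≤ K c / √(p : ℝ) * Real.log x := by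
          gcongr
        have h4 : K c / √(p : ℝ) * Real.log x = (K c * √(p : ℝ) * Real.log x) * (1 / p) := by
          have e1 : (1 : ℝ) / p = 1 / (√(p : ℝ) * √(p : ℝ)) := by rw [hpp]
          rw [e1]
          field_simp
        have h5 : (K c * √(p : ℝ) * Real.log x) * (1 / p) ≤ (K c * √(x : ℝ) * Real.log x) * (1 / p) := by gcongr
        linarith
    have hdiv : ∑ p ∈ op x, (if p ∣ M c then (1 : ℝ) else 0) ≤ M c := by
      rw [← sum_filter, sum_const, nsmul_eq_mul, mul_one]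
      have h1 : (op x).filter (fun p => p ∣ M c) ⊆ Icc 1 (M c) := by
        intro p hp
        rw [mem_filter, mem_op] at hp
        rw [mem_Icc]
        exact ⟨hp.1.2.1.one_lt.le, Nat.le_of_dvd (Nat.pos_of_ne_zero (hM c)) hp.2⟩
      have h3 := card_le_card h1
      rw [Nat.card_Icc, Nat.add_sub_cancel] at h3
      exact_mod_cast h3
    calc _ ≤ ∑ p ∈ op x, ((K c * √(x : ℝ) * Real.log x) * (1 / p) +
        (K c * √(x : ℝ) * Real.log x) * (if p ∣ M c then 1 else 0)) := (abs_sum_le_sum_abs _ _).trans (sum_le_sum hbd)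
      _ = (K c * √(x : ℝ) * Real.log x) * ∑ p ∈ op x, (1 / p : ℝ) +
        (K c * √(x : ℝ) * Real.log x) * ∑ p ∈ op x, (if p ∣ M c then 1 else 0) := by
          rw [sum_add_distrib, ← mul_sum, ← mul_sum]
      _ ≤ (K c * √(x : ℝ) * Real.log x) * (1 + Real.log x) + (K c * √(x : ℝ) * Real.log x) * M c := by
          have := op_harmonic x
          gcongr
      _ ≤ (K c * (1 + M c)) * √(x : ℝ) * (1 + Real.log x) ^ 2 := by
          have h1 : Real.log x * (1 + Real.log x) ≤ (1 + Real.log x) ^ 2 := by nlinarith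
          have h3 : Real.log x ≤ (1 + Real.log x) ^ 2 := by nlinarith
          have h4 : 0 ≤ K c * √(x : ℝ) := by positivity
          have h5 : 0 ≤ K c * √(x : ℝ) * M c := by positivity
          have h6 := mul_le_mul_of_nonneg_left h1 h4
          have h7 := mul_le_mul_of_nonneg_left h3 h5
          linarith
  rw [hsplit]
  refine (abs_add_le _ _).trans ?_
  rw [abs_mul, abs_of_pos (by positivity : (0 : ℝ) < K c * (√(x : ℝ) * Real.log x))]
  have hsq : √(1 + (1 + Real.log x)) ≤ 2 * (1 + Real.log x) := by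
    rw [Real.sqrt_le_left (by linarith)]
    nlinarith
  have hxd : 1 ≤ (x : ℝ) ^ (δ / 4) := Real.one_le_rpow (by linarith) (by positivity)
  have h1 : (K c * (√(x : ℝ) * Real.log x)) * |∑ p ∈ op x, F c x w p n| ≤
      (K c * 2) * (√(x : ℝ) * (x : ℝ) ^ (δ / 4)) * (1 + Real.log x) ^ 2 := by
    calc _ ≤ (K c * (√(x : ℝ) * Real.log x)) * (√(1 + (1 + Real.log x)) * (x : ℝ) ^ (δ / 4)) := by gcongr
      _ ≤ (K c * (√(x : ℝ) * (1 + Real.log x))) * ((2 * (1 + Real.log x)) * (x : ℝ) ^ (δ / 4)) := by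
          gcongr
          linarith
      _ = _ := by ring
  have h3 : (K c * (1 + M c)) * √(x : ℝ) * (1 + Real.log x) ^ 2 ≤
      (K c * (1 + M c)) * (√(x : ℝ) * (x : ℝ) ^ (δ / 4)) * (1 + Real.log x) ^ 2 := by
    have : √(x : ℝ) ≤ √(x : ℝ) * (x : ℝ) ^ (δ / 4) := le_mul_of_one_le_right hxb.le hxd
    gcongr
  calc _ ≤ (K c * 2) * (√(x : ℝ) * (x : ℝ) ^ (δ / 4)) * (1 + Real.log x) ^ 2 +
      (K c * (1 + M c)) * (√(x : ℝ) * (x : ℝ) ^ (δ / 4)) * (1 + Real.log x) ^ 2 := add_le_add h1 (hrest.trans h3)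
    _ = √(x : ℝ) * ((K c * (3 + M c)) * (x : ℝ) ^ (δ / 4) * (1 + Real.log x) ^ 2) := by ring
    _ ≤ √(x : ℝ) * (x : ℝ) ^ δ := by
        have h5 := hx₀ x hxx
        rw [hK₁] at h5
        exact mul_le_mul_of_nonneg_left h5 hxb.le
    _ = _ := by rw [Real.sqrt_eq_rpow, ← Real.rpow_add hx0]

end Pool.Agent.X124.KP
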